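import Pool.Agent.H43.ExMain

set_option autoImplicit false

namespace Pool.Agent.Results.MP_20d613_pr.Transfer

open Pool.Agent.H43.Ex MeasureTheory ProbabilityTheory Filter Topology Function
open scoped ENNReal

lemma choquet {W Ω : Type} [MeasurableSpace W] [TopologicalSpace Ω] (μ : Measure W)
    (r : W → Ω → Prop) {f : (ℕ → ℕ) → Ω} (hf : Continuous f) {c : ℝ≥0∞}
    (h : c < μ {w | ∃ σ, r w (f σ)}) : ∃ K, IsCompact K ∧ K ⊆ Set.range f ∧
      ∀ U, IsOpen U → K ⊆ U → c < μ {w | ∃ x ∈ U, r w x} := by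
  have h1 : ∀ (S : Set (ℕ → ℕ)) k, c < μ {w | ∃ σ ∈ S, r w (f σ)} →
      ∃ b, c < μ {w | ∃ σ ∈ S ∩ {σ | σ k ≤ b}, r w (f σ)} := fun S k h => by
    rw [← lt_iSup_iff, ← Monotone.measure_iUnion (by
      exact fun a b hab w ⟨σ, h1, h2⟩ => ⟨σ, ⟨h1.1, le_trans h1.2 hab⟩, h2⟩)]
    exact h.trans_le (measure_mono fun w ⟨σ, h1, h2⟩ => Set.mem_iUnion.2 ⟨σ k, σ, ⟨h1, le_refl (σ k)⟩, h2⟩)
  choose! b hb using h1
  let S : ℕ → Set (ℕ → ℕ) := fun k => k.rec Set.univ fun k S => S ∩ {σ | σ k ≤ b S k}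
  have h2 : ∀ k, c < μ {w | ∃ σ ∈ S k, r w (f σ)} := fun k => by
    induction k with
    | zero => simpa [S] using h
    | succ k ih => exact hb _ _ ih
  have h3 : ∀ k, ∀ σ ∈ S k, ∀ i < k, σ i ≤ b (S i) i := fun k => by
    induction k with
    | zero => simp
    | succ k ih => exact fun σ h => Nat.forall_lt_succ_right.2 ⟨ih σ h.1, h.2⟩
  have hc := isCompact_univ_pi fun i => (Set.finite_Iic (b (S i) i)).isCompact
  refine ⟨_, hc.image hf, Set.image_subset_range _ _, fun U hU hK => ?_⟩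
  by_contra h4
  have h5 : ∀ k, ∃ σ ∈ S k, f σ ∉ U := fun k => by
    by_contra! h5
    exact h4 ((h2 k).trans_le (measure_mono fun w ⟨σ, h1, h2⟩ => ⟨_, h5 σ h1, h2⟩))
  choose σ h5 h6 using h5
  obtain ⟨τ, h7, φ, h8, h9⟩ := hc.tendsto_subseq (x := fun k i => min (σ k i) (b (S i) i))
    fun k i _ => Set.mem_Iic.2 (min_le_right _ _)
  have h10 : Tendsto (σ ∘ φ) atTop (𝓝 τ) := tendsto_pi_nhds.2 fun i =>
    (tendsto_pi_nhds.1 h9 i).congr' (eventually_atTop.2 ⟨i + 1, fun k hk =>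
      min_eq_left (h3 _ _ (h5 _) i (hk.trans (h8.id_le k)))⟩)
  obtain ⟨k, hk⟩ := (((hf.tendsto τ).comp h10).eventually (hU.mem_nhds (hK ⟨τ, h7, rfl⟩))).exists
  exact h6 _ hk

/-- Exceptional times for an exclusion dynamics give exceptional times for ordinary dynamical
percolation. -/
theorem result {I W W' : Type} [DecidableEq I] [Countable I] [MeasurableSpace W]
    [MeasurableSpace W'] (P : I → I → ℝ) (h0 : ∀ x y, 0 ≤ P x y) (hs : ∀ x y, P x y = P y x)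
    (hK : ∃ K, ∀ x, Summable (P x) ∧ ∑' y, P x y ≤ K)
    (μ : Measure W) [IsProbabilityMeasure μ] (X : ℝ → W → I → Bool) (hX : Dyn (Lexc P) μ X)
    (μ' : Measure W') [IsProbabilityMeasure μ'] (Y : ℝ → W' → I → Bool) (hY : Dyn Lind μ' Y)
    (A : Set (I → Bool)) (hA : MeasurableSet A) (hA0 : PP I A = 0)
    (h : μ {w | ∃ t, 0 ≤ t ∧ X t w ∈ A} ≠ 0) : μ' {w | ∃ t, 0 ≤ t ∧ Y t w ∈ A} ≠ 0 := by
  intro hY0
  obtain ⟨K, hK⟩ : ∃ K : ℕ, ∀ x (u : Finset I), ∑ y ∈ u, P x y ≤ K :=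
    let ⟨K, hK⟩ := hK
    ⟨⌈K⌉₊, fun x u => (((hK x).1.sum_le_tsum u fun y _ => h0 x y).trans (hK x).2).trans (Nat.le_ceil K)⟩
  obtain ⟨T, hT⟩ : ∃ T : ℕ, μ {w | ∃ t ∈ Set.Ico (0 : ℝ) T, X t w ∈ A} ≠ 0 := by
    by_contra! h1
    refine h (measure_mono_null (fun w ⟨t, h1, h2⟩ => Set.mem_iUnion.2 ?_) (measure_iUnion_null h1))
    exact ⟨⌊t⌋₊ + 1, t, ⟨h1, by push_cast; exact Nat.lt_floor_add_one t⟩, h2⟩
  obtain ⟨c, -, c0, hc⟩ := ENNReal.lt_iff_exists_real_btwn.1 (pos_iff_ne_zero.2 hT)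
  haveI : PolishSpace (I → Bool) := { }
  have h1 : AnalyticSet A := hA.analyticSet
  rw [AnalyticSet] at h1
  obtain rfl | ⟨f, hf, rfl⟩ := h1
  · simp at hT
  obtain ⟨Z, z1, z2, z3⟩ := choquet μ (fun w x => ∃ t ∈ Set.Ico (0 : ℝ) T, X t w = x) hf
    (hc.trans_le (measure_mono fun w ⟨t, h1, σ, h2⟩ => ⟨σ, t, h1, h2.symm⟩))
  obtain ⟨F, f1, f2⟩ : ∃ F : ℕ → Finset I, Monotone F ∧ ∀ x, ∀ᶠ n in atTop, x ∈ F n := by
    obtain ⟨F, h1, h2⟩ := exists_seq_monotone_tendsto_atTop_atTop (Finset I)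
    exact ⟨F, h1, fun x => (h2.eventually (eventually_ge_atTop {x})).mono fun n h =>
      Finset.singleton_subset_iff.1 h⟩
  let O : ℕ → Set (I → Bool) := fun n => {ω | ∃ η ∈ Z, ∀ x ∈ F n, ω x = η x}
  have o1 : ∀ n, DependsOn (· ∈ O n) (F n) := fun n ω ω' h => propext (exists_congr fun η =>
    and_congr_right fun _ => forall₂_congr fun x hx => by rw [h x hx])
  have o2 : Antitone O := fun a b hab ω ⟨η, h1, h2⟩ => ⟨η, h1, fun x hx => h2 x (f1 hab hx)⟩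
  have o3 : ∀ (y : I → Bool) (u : ℕ → I → Bool) (φ : ℕ → ℕ) (L : Filter ℕ) [L.NeBot], L ≤ atTop →
      Tendsto φ atTop atTop → (∀ n, u n ∈ O (φ n)) → Tendsto u L (𝓝 y) → y ∈ Z :=
    fun y u φ L _ hL hφ hu hy => by
      choose η h1 h2 using hu
      refine z1.isClosed.mem_of_tendsto (b := L) (tendsto_pi_nhds.2 fun x =>
        (tendsto_pi_nhds.1 hy x).congr' ?_) (.of_forall h1)
      exact ((hφ.eventually (f2 x)).filter_mono hL).mono fun n h => h2 n x h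
  have o4 : Tendsto (fun n => (PP I).real (O n)) atTop (𝓝 0) := by
    have := tendsto_measure_iInter_atTop (μ := PP I)
      (fun n => (cyl_open (o1 n)).measurableSet.nullMeasurableSet) o2 ⟨0, by simp⟩
    rw [measure_mono_null (s := ⋂ n, O n) (fun y hy => z2 (o3 y (fun _ => y) id atTop le_rfl tendsto_id
      (Set.mem_iInter.1 hy) tendsto_const_nhds)) hA0] at this
    exact (ENNReal.tendsto_toReal (by simp)).comp this
  obtain ⟨T', t1, t2⟩ := ((eventually_ge_atTop T).and ((((Real.tendsto_exp_neg_atTop_nhds_zero.comp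
    tendsto_natCast_atTop_atTop).const_mul (2 * K + 3 : ℝ)).const_mul (Real.exp T)).eventually
      (gt_mem_nhds (a := c) (by simpa using c0)))).exists
  let H : ℕ → Set W' := fun n => {w | ∃ q : ℚ, (q : ℝ) ∈ Set.Icc (0 : ℝ) T' ∧ Y q w ∈ O n}
  have e1 : μ' (⋂ n, H n) = 0 := by
    have j : ∀ x, μ' {w | ∃ t ∈ Set.Ioc (0 : ℝ) T', ∃ y ∈ Z, Tendsto (Y · w) (𝓝[<] t) (𝓝 y) ∧
        y x ≠ Y t w x} = 0 := fun x => le_zero_iff.1 (ge_of_tendsto' (by
          simpa using ENNReal.tendsto_ofReal ((o4.const_mul 2).const_mul (T' : ℝ))) fun n =>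
        le_trans (measure_mono fun w ⟨t, h1, y, h2, h3⟩ => by
          exact ⟨t, h1, y, ⟨y, h2, fun _ _ => rfl⟩, h3⟩) (jump hY (o1 n) x T'))
    refine le_zero_iff.1 ((measure_mono_ae (hY.path.mono ?_)).trans_eq
      (measure_union_null hY0 (measure_iUnion_null j)))
    rintro w ⟨p1, p2⟩ hw
    choose q q1 q2 using Set.mem_iInter.1 hw
    obtain ⟨t, ht, φ, hφ, hq⟩ := isCompact_Icc.tendsto_subseq q1
    by_cases h1 : ∃ᶠ k in atTop, t ≤ q (φ k)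
    · haveI := frequently_iff_neBot.1 h1
      exact Or.inl ⟨t, ht.1, z2 (o3 _ _ φ (atTop ⊓ 𝓟 {k | t ≤ q (φ k)}) inf_le_left hφ.tendsto_atTop (fun n => q2 _)
        ((p1 t ht.1).tendsto.comp (hq.inf (tendsto_principal_principal.2 fun k h => h))))⟩
    rw [not_frequently] at h1
    obtain ⟨k, hk⟩ := h1.exists
    have t0 : 0 < t := (q1 _).1.trans_lt (not_le.1 hk)
    obtain ⟨y, hy⟩ := p2 t t0
    have h2 := o3 y _ φ atTop le_rfl hφ.tendsto_atTop (fun n => q2 _)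
      (hy.comp (tendsto_nhdsWithin_iff.2 ⟨hq, h1.mono fun k h => not_le.1 h⟩))
    by_cases h3 : y = Y t w
    · exact Or.inl ⟨t, ht.1, h3 ▸ z2 h2⟩
    · obtain ⟨x, hx⟩ := ne_iff.1 h3
      exact Or.inr (Set.mem_iUnion.2 ⟨x, t, ⟨t0, ht.2⟩, y, h2, hy, hx⟩)
  have e2 := tendsto_measure_iInter_atTop (μ := μ') (s := H) (fun n => by
    refine MeasurableSet.nullMeasurableSet ?_
    simp only [H, Set.ofPred_exists]
    exact .iUnion fun q => (MeasurableSet.const _).inter (hY.meas q (cyl_open (o1 n)).measurableSet))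
    (fun a b hab w ⟨q, h1, h2⟩ => ⟨q, h1, o2 hab h2⟩) ⟨0, by simp⟩
  rw [e1] at e2
  have e3 := ((((ENNReal.tendsto_toReal (by simp)).comp e2).const_mul (2 * K + 1 : ℝ)).const_add
    ((2 * K + 3) * Real.exp (-T'))).const_mul (Real.exp T)
  obtain ⟨n, hn⟩ := (e3.eventually (gt_mem_nhds (a := c) (by simpa using t2))).exists
  refine (z3 (O n) (cyl_open (o1 n)) fun y hy => ⟨y, hy, fun _ _ => rfl⟩).not_ge ?_
  refine le_trans (measure_mono ?_) ((hit hX hY h0 hs hK (o1 n) t1).trans (ENNReal.ofReal_le_ofReal hn.le))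
  rintro w ⟨_, h1, t, h2, rfl⟩
  exact ⟨t, h2, h1⟩

end Pool.Agent.Results.MP_20d613_pr.Transfer
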